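import Pool.Agent.Lib.Helper98.CompleteMix

set_option autoImplicit false

/-!
# Asymptotic complete mixability of laws that are not singular

The proof of `CM98.main` with one density point instead of two: the points on the other side of the
mean need not be density points.
-/

open MeasureTheory Set Topology Filter BoundedContinuousFunction
open scoped ENNReal

namespace Pool.Agent.H72I

open Pool.Agent.CM98

/-- The dual inequality, from a density point `z₀` and a set `T` of positive mass on the other side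
of the mean. -/
theorem dual_core (μ : Measure ℝ) [IsProbabilityMeasure μ] (a b : ℝ) (hab : μ (Icc a b)ᶜ = 0)
    (m : ℝ) (hm : m = ∫ x, x ∂μ) (ham : a < m) (hmb : m < b)
    (S T : Set ℝ) (hSsub : S ⊆ Icc a b) (z₀ r : ℝ) (hz₀ : z₀ ∈ S) (hr : 0 < r) (C₁ : ℝ≥0∞)
    (hC₁ : C₁ ≠ ⊤)
    (hpair : ∀ θ : ℝ, |θ| ≤ r → ∀ h : ℝ → ℝ≥0∞, Measurable h →
      ∀ B : ℝ≥0∞, (∀ x ∈ S, 2 * z₀ + θ - x ∈ S → B ≤ h x + h (2 * z₀ + θ - x)) →
        B ≤ C₁ * ∫⁻ x, h x ∂μ)
    (hTsub : T ⊆ Icc a b) (hT : μ T ≠ 0) (η : ℝ) (hη : 0 < η)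
    (hTη : ∀ y ∈ T, η ≤ |y - m|) (hopp : ∀ y ∈ T, (y - m) * (z₀ - m) ≤ 0) :
    ∃ N : ℕ, ∀ n : ℕ, N ≤ n → ∀ g : ℝ → ℝ, Continuous g →
      (∀ s : Multiset ℝ, s.card = n → (∀ x ∈ s, x ∈ Icc a b) → s.sum = n * ∫ x, x ∂μ →
        0 ≤ (s.map g).sum) → 0 ≤ ∫ x, g x ∂μ := by
  rw [← hm]
  have hae : ∀ᵐ x ∂μ, x ∈ Icc a b := by
    rw [ae_iff]; exact hab
  have hrestr : μ.restrict (Icc a b) = μ := Measure.restrict_eq_self_of_ae_mem hae
  have hint : ∀ φ : ℝ → ℝ, Continuous φ → Integrable φ μ := by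
    intro φ hφ
    have := (hφ.continuousOn (s := Icc a b)).integrableOn_compact (μ := μ) isCompact_Icc
    rwa [IntegrableOn, hrestr] at this
  have hid : Integrable (fun x : ℝ => x) μ := hint _ continuous_id
  have hxm : ∫ x, (x - m) ∂μ = 0 := by
    rw [integral_sub hid (integrable_const _)]
    simp [hm]
  have hbapos : 0 < b - a := by linarith
  -- the number of pairs near `z₀`
  set j : ℕ := ⌈2 * (b - a) / r⌉₊ with hj
  have hj1 : 2 * (b - a) ≤ j * r := by
    have := Nat.le_ceil (2 * (b - a) / r)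
    rwa [div_le_iff₀ hr] at this
  have hj0 : 0 < (j : ℝ) := by
    by_contra hcon
    have : (j : ℝ) * r ≤ 0 := mul_nonpos_of_nonpos_of_nonneg (not_lt.1 hcon) hr.le
    linarith
  -- the maximal number of copies of a point of `T`
  set L : ℕ := ⌈2 * j * (b - a) / η⌉₊ + 1 with hL
  have hL0 : 0 < (L : ℝ) := by rw [hL]; positivity
  have hTr : 0 < μ.real T := by
    rw [measureReal_def]
    exact ENNReal.toReal_pos hT (measure_ne_top μ T)
  set C : ℝ := L * (μ.real T)⁻¹ + j * C₁.toReal with hC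
  have hCpos : 0 < C := by
    have h1 : 0 < L * (μ.real T)⁻¹ := mul_pos hL0 (inv_pos.2 hTr)
    have h2 : 0 ≤ j * C₁.toReal := by positivity
    rw [hC]; linarith
  refine ⟨max (2 * j + L) ⌈C⌉₊, fun n hn g hg hdual => ?_⟩
  have hnk : 2 * j + L ≤ n := le_trans (le_max_left _ _) hn
  have hnC : C ≤ n := by
    have h1 : (⌈C⌉₊ : ℝ) ≤ n := by exact_mod_cast le_trans (le_max_right _ _) hn
    exact (Nat.le_ceil C).trans h1
  obtain ⟨α, t, u, v, hu, hv, hpos, hgu, hgv⟩ := support_line ham hmb g hg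
  set h : ℝ → ℝ := fun x => g x - α * (x - m) + t with hh
  have hhc : Continuous h := by simp only [hh]; fun_prop
  have hinth : ∫ x, h x ∂μ = ∫ x, g x ∂μ + t := by
    have e1 : ∫ x, h x ∂μ = ∫ x, (g x - α * (x - m)) ∂μ + ∫ _, t ∂μ :=
      integral_add (hint _ (by fun_prop)) (integrable_const t)
    have e2 : ∫ x, (g x - α * (x - m)) ∂μ = ∫ x, g x ∂μ - ∫ x, α * (x - m) ∂μ :=
      integral_sub (hint _ hg) (hint _ (by fun_prop))
    rw [e1, e2, integral_const_mul, hxm]
    simp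
  have hhnn : 0 ≤ᵐ[μ] h := by
    filter_upwards [hae] with x hx using hpos x hx
  have hhint0 : 0 ≤ ∫ x, h x ∂μ := integral_nonneg_of_ae hhnn
  rcases le_or_gt t 0 with ht | ht
  · linarith
  -- a point `y` of `T` with small `h y`
  obtain ⟨y, hyT, hyh⟩ := exists_le_setAverage (μ := μ) hT (measure_ne_top μ T)
    ((hint h hhc).integrableOn (s := T))
  have hyI : y ∈ Icc a b := hTsub hyT
  have hhy0 : 0 ≤ h y := hpos y hyI
  have hyh' : h y ≤ (μ.real T)⁻¹ * ∫ x, h x ∂μ := by
    refine hyh.trans ?_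
    rw [setAverage_eq, smul_eq_mul]
    refine mul_le_mul_of_nonneg_left ?_ (inv_pos.2 hTr).le
    exact setIntegral_le_integral (hint h hhc) hhnn
  have hym : 0 < |y - m| := lt_of_lt_of_le hη (hTη y hyT)
  have hymb : |y - m| ≤ b - a := by
    rw [abs_le]; constructor <;> linarith [hyI.1, hyI.2]
  have hzI : z₀ ∈ Icc a b := hSsub hz₀
  have hzmb : |z₀ - m| ≤ b - a := by
    rw [abs_le]; constructor <;> linarith [hzI.1, hzI.2]
  set l : ℕ := ⌈2 * j * |z₀ - m| / |y - m|⌉₊ with hl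
  have hl1 : 2 * j * |z₀ - m| ≤ l * |y - m| := by
    have := Nat.le_ceil (2 * j * |z₀ - m| / |y - m|)
    rwa [div_le_iff₀ hym] at this
  have hl2 : l * |y - m| ≤ 2 * j * |z₀ - m| + |y - m| := by
    have h1 := (Nat.ceil_lt_add_one (show 0 ≤ 2 * j * |z₀ - m| / |y - m| by positivity)).le
    have h2 := mul_le_mul_of_nonneg_right h1 hym.le
    have h3 : (2 * j * |z₀ - m| / |y - m| + 1) * |y - m| = 2 * j * |z₀ - m| + |y - m| := by
      field_simp
    rw [h3] at h2
    exact h2
  have hlL : l ≤ L := by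
    rw [hl, hL]
    refine le_trans (Nat.ceil_mono ?_) (Nat.le_succ _)
    rw [div_le_div_iff₀ hym hη]
    have h1 : |z₀ - m| * η ≤ (b - a) * |y - m| :=
      mul_le_mul hzmb (hTη y hyT) hη.le hbapos.le
    have h2 : (0 : ℝ) ≤ 2 * j := by positivity
    nlinarith [mul_le_mul_of_nonneg_left h1 h2]
  set τ : ℝ := 2 * j * (z₀ - m) + l * (y - m) with hτ
  have hτb : |τ| ≤ b - a := by
    refine le_trans ?_ hymb
    have ho := hopp y hyT
    rcases le_or_gt 0 (y - m) with hp | hneg
    · have hp' : 0 < y - m := by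
        rcases hp.eq_or_lt with h0 | h0
        · rw [← h0, abs_zero] at hym
          exact absurd hym (lt_irrefl _)
        · exact h0
      have hz : z₀ - m ≤ 0 := by
        by_contra hcon
        push Not at hcon
        exact absurd (mul_pos hp' hcon) (not_lt.2 ho)
      rw [abs_of_pos hp'] at hl1 hl2 ⊢
      rw [abs_of_nonpos hz] at hl1 hl2
      rw [abs_le]; constructor <;> nlinarith
    · have hz : 0 ≤ z₀ - m := by
        by_contra hcon
        push Not at hcon
        exact absurd (mul_pos_of_neg_of_neg hneg hcon) (not_lt.2 ho)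
      rw [abs_of_neg hneg] at hl1 hl2 ⊢
      rw [abs_of_nonneg hz] at hl1 hl2
      rw [abs_le]; constructor <;> nlinarith
  -- split of the remaining variables
  obtain ⟨p, q, hpq, hσ0, hσ1⟩ := exists_split hu.2 hv.1 (n - (2 * j + l))
  set M := n - (2 * j + l) with hM
  have hnl : 2 * j + l ≤ n := le_trans (Nat.add_le_add_left hlL _) hnk
  have hMn : (M : ℝ) = n - 2 * j - l := by
    rw [hM, Nat.cast_sub hnl]; push_cast; ring
  set σ : ℝ := M * m - p * u - q * v with hσ
  have hσb : σ ≤ b - a := by linarith [hu.1, hv.2]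
  set θ : ℝ := (σ - τ) / j with hθ
  have hθj : j * θ = σ - τ := by
    rw [hθ]; field_simp
  have hθr : |θ| ≤ r := by
    rw [hθ, abs_div, abs_of_pos hj0, div_le_iff₀ hj0]
    have h1 : |σ - τ| ≤ 2 * (b - a) := by
      have h2 := abs_le.1 hτb
      rw [abs_le]; constructor <;> linarith [h2.1, h2.2]
    linarith [mul_comm r (j : ℝ)]
  -- the key inequality
  have hkey : ∀ x ∈ S, 2 * z₀ + θ - x ∈ S →
      n * t ≤ j * (h x + h (2 * z₀ + θ - x)) + L * h y := by
    intro x hx hx'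
    set s : Multiset ℝ := Multiset.replicate j x + Multiset.replicate j (2 * z₀ + θ - x)
      + Multiset.replicate l y + Multiset.replicate p u + Multiset.replicate q v with hs
    have hcard : s.card = n := by
      rw [hs]
      simp only [Multiset.card_add, Multiset.card_replicate]
      omega
    have hmem : ∀ z ∈ s, z ∈ Icc a b := by
      intro z hz
      rw [hs] at hz
      simp only [Multiset.mem_add, Multiset.mem_replicate] at hz
      rcases hz with (((hz | hz) | hz) | hz) | hz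
      · rw [hz.2]; exact hSsub hx
      · rw [hz.2]; exact hSsub hx'
      · rw [hz.2]; exact hyI
      · rw [hz.2]; exact ⟨hu.1, hu.2.trans hmb.le⟩
      · rw [hz.2]; exact ⟨ham.le.trans hv.1, hv.2⟩
    have hsum' : (j : ℝ) * x + j * (2 * z₀ + θ - x) + l * y + p * u + q * v = n * m := by
      have e : (j : ℝ) * x + j * (2 * z₀ + θ - x) + l * y + p * u + q * v
          = 2 * j * z₀ + j * θ + l * y + (M * m - σ) := by
        rw [hσ]; ring
      rw [e, hθj, hMn, hτ]; ring
    have hsum : s.sum = n * m := by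
      rw [hs]
      simp only [Multiset.sum_add, Multiset.sum_replicate, nsmul_eq_mul]
      exact hsum'
    have h1 := hdual s hcard hmem hsum
    rw [hs] at h1
    simp only [Multiset.map_add, Multiset.map_replicate, Multiset.sum_add,
      Multiset.sum_replicate, nsmul_eq_mul] at h1
    have hgh : ∀ z, g z = h z + α * (z - m) - t := fun z => by simp only [hh]; ring
    have hhu : h u = 0 := hgu
    have hhv : h v = 0 := hgv
    rw [hgh x, hgh (2 * z₀ + θ - x), hgh y, hgh u, hgh v, hhu, hhv] at h1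
    have hcardR : (j : ℝ) + j + l + p + q = n := by
      have : j + j + l + p + q = n := by omega
      exact_mod_cast this
    have e3 : (j : ℝ) * (h x + α * (x - m) - t) + j * (h (2 * z₀ + θ - x)
        + α * (2 * z₀ + θ - x - m) - t) + l * (h y + α * (y - m) - t)
        + p * (0 + α * (u - m) - t) + q * (0 + α * (v - m) - t)
        = j * (h x + h (2 * z₀ + θ - x)) + l * h y
          + α * (((j : ℝ) * x + j * (2 * z₀ + θ - x) + l * y + p * u + q * v)
            - ((j : ℝ) + j + l + p + q) * m)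
          - ((j : ℝ) + j + l + p + q) * t := by ring
    rw [e3, hsum', hcardR] at h1
    have h2 : (l : ℝ) * h y ≤ L * h y :=
      mul_le_mul_of_nonneg_right (by exact_mod_cast hlL) hhy0
    linarith
  set B : ℝ := (n * t - L * h y) / j with hB
  have hBj : j * B = n * t - L * h y := by rw [hB]; field_simp
  have hmeas : Measurable fun x => ENNReal.ofReal (h x) := hhc.measurable.ennreal_ofReal
  have hmain : ENNReal.ofReal B ≤ C₁ * ∫⁻ x, ENNReal.ofReal (h x) ∂μ := by
    refine hpair θ hθr _ hmeas _ fun x hx hx' => ?_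
    rw [← ENNReal.ofReal_add (hpos _ (hSsub hx)) (hpos _ (hSsub hx'))]
    refine ENNReal.ofReal_le_ofReal ?_
    have h1 := hkey x hx hx'
    have h2 : j * B ≤ j * (h x + h (2 * z₀ + θ - x)) := by rw [hBj]; linarith
    exact le_of_mul_le_mul_left h2 hj0
  have hlint : ∫⁻ x, ENNReal.ofReal (h x) ∂μ = ENNReal.ofReal (∫ x, h x ∂μ) :=
    (ofReal_integral_eq_lintegral_ofReal (hint _ hhc) hhnn).symm
  rw [hlint] at hmain
  have hreal : B ≤ C₁.toReal * ∫ x, h x ∂μ := by
    rw [← ENNReal.ofReal_toReal hC₁, ← ENNReal.ofReal_mul ENNReal.toReal_nonneg] at hmain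
    exact (ENNReal.ofReal_le_ofReal_iff (mul_nonneg ENNReal.toReal_nonneg hhint0)).1 hmain
  have h5 : n * t ≤ C * ∫ x, h x ∂μ := by
    have h6 := mul_le_mul_of_nonneg_left hreal hj0.le
    rw [hBj] at h6
    have h7 := mul_le_mul_of_nonneg_left hyh' hL0.le
    rw [hC]
    nlinarith
  rw [hinth] at h5
  have h6 : C * t ≤ n * t := mul_le_mul_of_nonneg_right hnC ht.le
  have h7 : 0 ≤ C * ∫ x, g x ∂μ := by linarith [mul_add C (∫ x, g x ∂μ) t]
  exact nonneg_of_mul_nonneg_right h7 hCpos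

/-- If a law on `[a,b]` is not concentrated at its mean `m`, it has mass in `[m + η, b]` for some
`η > 0`. -/
theorem mass_right (μ : Measure ℝ) [IsProbabilityMeasure μ] (a b : ℝ) (hab : μ (Icc a b)ᶜ = 0)
    (hne : μ ({∫ x, x ∂μ} : Set ℝ)ᶜ ≠ 0) :
    ∃ η : ℝ, 0 < η ∧ μ (Icc a b ∩ Ici (∫ x, x ∂μ + η)) ≠ 0 := by
  set m := ∫ x, x ∂μ with hm
  have hae : ∀ᵐ x ∂μ, x ∈ Icc a b := by
    rw [ae_iff]; exact hab
  have hrestr : μ.restrict (Icc a b) = μ := Measure.restrict_eq_self_of_ae_mem hae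
  have hint : ∀ φ : ℝ → ℝ, Continuous φ → Integrable φ μ := by
    intro φ hφ
    have := (hφ.continuousOn (s := Icc a b)).integrableOn_compact (μ := μ) isCompact_Icc
    rwa [IntegrableOn, hrestr] at this
  have hid : Integrable (fun x : ℝ => x) μ := hint _ continuous_id
  have hmx : ∫ x, (m - x) ∂μ = 0 := by
    rw [integral_sub (integrable_const _) hid]
    simp [hm]
  by_contra hcon
  push Not at hcon
  have h0 : μ (⋃ k : ℕ, Icc a b ∩ Ici (m + 1 / ((k : ℝ) + 1))) = 0 :=
    measure_iUnion_null fun k => hcon _ (by positivity)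
  have h1 : ∀ᵐ x ∂μ, 0 ≤ m - x := by
    have h2 : ∀ᵐ x ∂μ, x ∉ ⋃ k : ℕ, Icc a b ∩ Ici (m + 1 / ((k : ℝ) + 1)) :=
      measure_eq_zero_iff_ae_notMem.1 h0
    filter_upwards [hae, h2] with x hx hx2
    by_contra hc
    push Not at hc
    obtain ⟨k, hk⟩ := exists_nat_one_div_lt (show 0 < x - m by linarith)
    refine hx2 (mem_iUnion.2 ⟨k, hx, ?_⟩)
    simp only [mem_Ici]
    linarith
  have h3 := (integral_eq_zero_iff_of_nonneg_ae h1 (hint _ (by fun_prop))).1 hmx
  apply hne
  have h4 : ∀ᵐ x ∂μ, x ∈ ({m} : Set ℝ) := by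
    filter_upwards [h3] with x hx
    simp only [Pi.zero_apply] at hx
    simp only [mem_singleton_iff]; linarith
  exact mem_ae_iff.1 h4

/-- The same on the left. -/
theorem mass_left (μ : Measure ℝ) [IsProbabilityMeasure μ] (a b : ℝ) (hab : μ (Icc a b)ᶜ = 0)
    (hne : μ ({∫ x, x ∂μ} : Set ℝ)ᶜ ≠ 0) :
    ∃ η : ℝ, 0 < η ∧ μ (Icc a b ∩ Iic (∫ x, x ∂μ - η)) ≠ 0 := by
  set m := ∫ x, x ∂μ with hm
  have hae : ∀ᵐ x ∂μ, x ∈ Icc a b := by
    rw [ae_iff]; exact hab
  have hrestr : μ.restrict (Icc a b) = μ := Measure.restrict_eq_self_of_ae_mem hae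
  have hint : ∀ φ : ℝ → ℝ, Continuous φ → Integrable φ μ := by
    intro φ hφ
    have := (hφ.continuousOn (s := Icc a b)).integrableOn_compact (μ := μ) isCompact_Icc
    rwa [IntegrableOn, hrestr] at this
  have hid : Integrable (fun x : ℝ => x) μ := hint _ continuous_id
  have hxm : ∫ x, (x - m) ∂μ = 0 := by
    rw [integral_sub hid (integrable_const _)]
    simp [hm]
  by_contra hcon
  push Not at hcon
  have h0 : μ (⋃ k : ℕ, Icc a b ∩ Iic (m - 1 / ((k : ℝ) + 1))) = 0 :=
    measure_iUnion_null fun k => hcon _ (by positivity)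
  have h1 : ∀ᵐ x ∂μ, 0 ≤ x - m := by
    have h2 : ∀ᵐ x ∂μ, x ∉ ⋃ k : ℕ, Icc a b ∩ Iic (m - 1 / ((k : ℝ) + 1)) :=
      measure_eq_zero_iff_ae_notMem.1 h0
    filter_upwards [hae, h2] with x hx hx2
    by_contra hc
    push Not at hc
    obtain ⟨k, hk⟩ := exists_nat_one_div_lt (show 0 < m - x by linarith)
    refine hx2 (mem_iUnion.2 ⟨k, hx, ?_⟩)
    simp only [mem_Iic]
    linarith
  have h3 := (integral_eq_zero_iff_of_nonneg_ae h1 (hint _ (by fun_prop))).1 hxm
  apply hne
  have h4 : ∀ᵐ x ∂μ, x ∈ ({m} : Set ℝ) := by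
    filter_upwards [h3] with x hx
    simp only [Pi.zero_apply] at hx
    simp only [mem_singleton_iff]; linarith
  exact mem_ae_iff.1 h4

/-- The dual inequality for laws that are not singular. -/
theorem dual_ns (μ : Measure ℝ) [IsProbabilityMeasure μ] (hμ : ¬ μ ⟂ₘ volume) (a b : ℝ)
    (hab : μ (Icc a b)ᶜ = 0) :
    ∃ N : ℕ, ∀ n : ℕ, N ≤ n → ∀ g : ℝ → ℝ, Continuous g →
      (∀ s : Multiset ℝ, s.card = n → (∀ x ∈ s, x ∈ Icc a b) → s.sum = n * ∫ x, x ∂μ →
        0 ≤ (s.map g).sum) → 0 ≤ ∫ x, g x ∂μ := by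
  set m := ∫ x, x ∂μ with hm
  obtain ⟨μ', hμ'def⟩ : ∃ μ' : Measure ℝ, μ' = volume.withDensity (μ.rnDeriv volume) := ⟨_, rfl⟩
  have hle : μ' ≤ μ := by
    rw [hμ'def]
    exact Measure.withDensity_rnDeriv_le μ volume
  have hfin : IsFiniteMeasure μ' := isFiniteMeasure_of_le μ hle
  have hac : μ' ≪ volume := by
    rw [hμ'def]
    exact withDensity_absolutelyContinuous _ _
  have hne0 : μ' ≠ 0 := by
    intro h0
    apply hμ
    rw [← Measure.rnDeriv_eq_zero]
    rw [hμ'def] at h0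
    exact (withDensity_eq_zero_iff (Measure.measurable_rnDeriv μ volume).aemeasurable).1 h0
  have hsplit : μ' (Icc a b ∩ Iio m) ≠ 0 ∨ μ' (Icc a b ∩ Ioi m) ≠ 0 := by
    by_contra hcon
    push Not at hcon
    apply hne0
    rw [← Measure.measure_univ_eq_zero]
    have hc : (univ : Set ℝ) ⊆ (Icc a b)ᶜ ∪ {m} ∪ (Icc a b ∩ Iio m) ∪ (Icc a b ∩ Ioi m) := by
      intro x _
      by_cases hx : x ∈ Icc a b
      · rcases lt_trichotomy x m with h1 | h1 | h1
        · exact Or.inl (Or.inr ⟨hx, h1⟩)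
        · exact Or.inl (Or.inl (Or.inr h1))
        · exact Or.inr ⟨hx, h1⟩
      · exact Or.inl (Or.inl (Or.inl hx))
    refine measure_mono_null hc (measure_union_null (measure_union_null (measure_union_null ?_ ?_)
      hcon.1) hcon.2)
    · exact le_antisymm ((hle _).trans hab.le) zero_le
    · exact hac (by simp)
  have hnem : μ ({m} : Set ℝ)ᶜ ≠ 0 := by
    intro h0
    have h1 : μ' ({m} : Set ℝ)ᶜ = 0 := le_antisymm ((hle _).trans h0.le) zero_le
    rcases hsplit with h2 | h2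
    · exact h2 (measure_mono_null (fun x hx => (ne_of_lt hx.2 : x ≠ m)) h1)
    · exact h2 (measure_mono_null (fun x hx => (ne_of_gt hx.2 : x ≠ m)) h1)
  obtain ⟨η₁, hη₁, hR⟩ := mass_right μ a b hab hnem
  obtain ⟨η₂, hη₂, hL⟩ := mass_left μ a b hab hnem
  rw [← hm] at hR hL
  have ham : a < m := by
    obtain ⟨x, hx⟩ := nonempty_of_measure_ne_zero hL
    have h1 := hx.1.1
    have h2 : x ≤ m - η₂ := hx.2
    linarith
  have hmb : m < b := by
    obtain ⟨x, hx⟩ := nonempty_of_measure_ne_zero hR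
    have h1 := hx.1.2
    have h2 : m + η₁ ≤ x := hx.2
    linarith
  rcases hsplit with h2 | h2
  · obtain ⟨x₀, hx₀, r, hr, C₁, hC₁, hpair⟩ := pair_lemma μ' hac _
      (measurableSet_Icc.inter measurableSet_Iio) h2
    refine dual_core μ a b hab m hm ham hmb (Icc a b ∩ Iio m) (Icc a b ∩ Ici (m + η₁))
      inter_subset_left x₀ r hx₀ hr C₁ hC₁ (fun θ hθ h hh B hB => ?_) inter_subset_left hR η₁ hη₁
      ?_ ?_
    · refine (hpair θ hθ h hh B hB).trans ?_
      gcongr
    · intro y hy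
      have h3 : m + η₁ ≤ y := hy.2
      exact le_trans (by linarith) (le_abs_self _)
    · intro y hy
      have h3 : m + η₁ ≤ y := hy.2
      have h4 : x₀ < m := hx₀.2
      exact mul_nonpos_of_nonneg_of_nonpos (by linarith) (by linarith)
  · obtain ⟨x₀, hx₀, r, hr, C₁, hC₁, hpair⟩ := pair_lemma μ' hac _
      (measurableSet_Icc.inter measurableSet_Ioi) h2
    refine dual_core μ a b hab m hm ham hmb (Icc a b ∩ Ioi m) (Icc a b ∩ Iic (m - η₂))
      inter_subset_left x₀ r hx₀ hr C₁ hC₁ (fun θ hθ h hh B hB => ?_) inter_subset_left hL η₂ hη₂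
      ?_ ?_
    · refine (hpair θ hθ h hh B hB).trans ?_
      gcongr
    · intro y hy
      have h3 : y ≤ m - η₂ := hy.2
      exact le_trans (by linarith) (neg_le_abs _)
    · intro y hy
      have h3 : y ≤ m - η₂ := hy.2
      have h4 : m < x₀ := hx₀.2
      exact mul_nonpos_of_nonpos_of_nonneg (by linarith) (by linarith)

/-- **Asymptotic complete mixability of laws that are not singular.** -/
theorem main_ns (μ : Measure ℝ) [IsProbabilityMeasure μ] (hμ : ¬ μ ⟂ₘ volume) (a b : ℝ)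
    (hab : μ (Icc a b)ᶜ = 0) :
    ∃ N : ℕ, ∀ n : ℕ, N ≤ n → ∃ ν : Measure (Fin n → ℝ), IsProbabilityMeasure ν ∧
      (∀ i : Fin n, ν.map (fun x => x i) = μ) ∧
      ∀ᵐ x ∂ν, (∀ i, x i ∈ Icc a b) ∧ ∑ i, x i = n * ∫ x, x ∂μ := by
  obtain ⟨N, hN⟩ := dual_ns μ hμ a b hab
  refine ⟨max N 1, fun n hn => ?_⟩
  have hn1 : 0 < n := lt_of_lt_of_le one_pos ((le_max_right N 1).trans hn)
  have hnN : N ≤ n := (le_max_left N 1).trans hn
  set T : Set (Fin n → ℝ) :=
    (Set.univ.pi fun _ => Icc a b) ∩ {x | ∑ i, x i = n * ∫ x, x ∂μ} with hT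
  have hTc : IsCompact T := by
    refine (isCompact_univ_pi fun _ => isCompact_Icc).inter_right ?_
    exact isClosed_eq (by fun_prop) continuous_const
  have hTmem : ∀ x : Fin n → ℝ, x ∈ T ↔ (∀ i, x i ∈ Icc a b) ∧ ∑ i, x i = n * ∫ x, x ∂μ := by
    intro x
    rw [hT, mem_inter_iff, mem_ofPred_eq]
    simp only [Set.mem_pi, mem_univ, forall_true_left]
  obtain ⟨ν, hν, hmarg, hsupp⟩ := exists_coupling hn1 μ T hTc (by
      intro x hx σ
      rw [hTmem] at hx ⊢
      exact ⟨fun i => hx.1 _, by rw [Equiv.sum_comp σ x]; exact hx.2⟩) (by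
      intro g hg
      refine hN n hnN g g.continuous fun s hcard hmem hsum => ?_
      obtain ⟨l, rfl⟩ := Quot.exists_rep s
      have hcard' : l.length = n := hcard
      subst hcard'
      have h1 := hg (fun i => l.get i) (by
        rw [hTmem]
        refine ⟨fun i => hmem _ (by simp), ?_⟩
        rw [← hsum]
        have : (List.ofFn fun i => l.get i).sum = ∑ i, l.get i := List.sum_ofFn
        rw [← this, List.ofFn_get]
        rfl)
      have h2 : (List.ofFn fun i => g (l.get i)).sum = ∑ i, g (l.get i) := List.sum_ofFn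
      rw [← h2] at h1
      have h3 : (List.ofFn fun i => g (l.get i)) = l.map g := by
        have := List.map_ofFn (f := fun i => l.get i) (g := g)
        rw [List.ofFn_get] at this
        exact this.symm
      rw [h3] at h1
      exact h1)
  refine ⟨ν, hν, hmarg, ?_⟩
  filter_upwards [hsupp] with x hx
  exact (hTmem x).1 hx

end Pool.Agent.H72I
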